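import Pool.Agent.Y924.UF.Stm3

/-! # UF3-EXR: semantics and codes of iterated quantifiers -/

set_option autoImplicit false

namespace Pool.Agent.Y151.UF

open Function
open Pool.Agent.Y924.EL Pool.Agent.Y924.UF

/-- EXR -/
theorem t_EXR : S_EXR := by
  intro K _ O a n χ
  induction n with
  | zero =>
    intro v
    constructor
    · intro h
      exact ⟨v, fun _ _ => rfl, h⟩
    · rintro ⟨w, hw, h⟩
      have e : w = v := by
        funext j
        exact hw j (by omega)
      rw [← e]
      exact h
  | succ n ih =>
    intro v
    change (∃ x : K, Sat O (exR a n χ) (update v (a + n) x)) ↔ _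
    constructor
    · rintro ⟨x, hx⟩
      obtain ⟨w, hw, h⟩ := (ih _).mp hx
      refine ⟨w, ?_, h⟩
      intro j hj
      rw [hw j (by omega), update_of_ne (by omega)]
    · rintro ⟨w, hw, h⟩
      refine ⟨w (a + n), (ih _).mpr ⟨w, ?_, h⟩⟩
      intro j hj
      by_cases hjn : j = a + n
      · rw [hjn, update_self]
      · rw [update_of_ne hjn, hw j (by omega)]

theorem pr_right {f : ℕ → ℕ} (hf : Primrec f) : Primrec fun s => (f s).unpair.2 :=
  Primrec.snd.comp (Primrec.unpair.comp hf)

theorem pr_left {f : ℕ → ℕ} (hf : Primrec f) : Primrec fun s => (f s).unpair.1 :=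
  Primrec.fst.comp (Primrec.unpair.comp hf)

theorem pr_pair {f g : ℕ → ℕ} (hf : Primrec f) (hg : Primrec g) :
    Primrec fun s => Nat.pair (f s) (g s) :=
  Primrec₂.natPair.comp hf hg

/-- CMPB -/
theorem t_CMPB : S_CMPB := by
  refine ⟨?_, ?_, ?_⟩
  · intro a n χ
    induction n with
    | zero => rfl
    | succ n ih =>
      change Nat.pair 7 (Nat.pair (a + n) (exR a n χ).code) = _
      rw [ih]
      rfl
  · intro a n
    induction n with
    | zero => exact Primrec.id
    | succ n ih => exact pr_pair (Primrec.const 7) (pr_pair (Primrec.const (a + n)) ih)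
  · intro V
    have h : ∀ n : ℕ, Primrec fun m : ℕ => exRc (100 + V * m.unpair.1) n m.unpair.2 := by
      intro n
      induction n with
      | zero => exact pr_right Primrec.id
      | succ n ih =>
        have h1 : Primrec fun m : ℕ => 100 + V * m.unpair.1 + n :=
          Primrec.nat_add.comp (Primrec.nat_add.comp (Primrec.const 100)
            (Primrec.nat_mul.comp (Primrec.const V) (pr_left Primrec.id))) (Primrec.const n)
        exact pr_pair (Primrec.const 7) (pr_pair h1 ih)
    exact h V

end Pool.Agent.Y151.UF
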